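import Pool.Agent.QSN.StmtsA
import Pool.Agent.Helper10_QSX.CHD

set_option autoImplicit false

/-! # Squad QSN (MP_dc0713_gt), row CDM: homogeneous families are products of monomial factors
(adapted from row CHD of squad QSX, helper10) -/

namespace Pool.Agent.QSN.H43

open Matrix Finset Pool.Agent.QSX Pool.Agent.QSN

theorem su_e {X : Dat} (hX : MRS X) (l : hX.ι) (x : ℝ) : SU (x • hX.e l) := by
  have h : hX.e l ∈ X.n := by
    rw [← hX.span_e]
    exact Submodule.subset_span ⟨l, rfl⟩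
  exact (X.su _ h).smul x

/-- The roots `rt l`, `rt l'` are linearly independent. -/
theorem indep {X : Dat} (hX : MRS X) {l l' : hX.ι} (hne : hX.rt l ≠ hX.rt l') {α β : ℝ}
    (h : ∀ a, α * hX.rt l a + β * hX.rt l' a = 0) : α = 0 ∧ β = 0 := by
  have h1 : α = 0 := by
    by_contra hα
    apply hX.nonprop l l' hne (-β / α)
    apply LinearMap.ext
    intro a
    rw [LinearMap.smul_apply, smul_eq_mul]
    have := h a
    field_simp
    linarith
  refine ⟨h1, ?_⟩
  obtain ⟨a, ha⟩ := hX.pos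
  have h2 := h a
  rw [h1, zero_mul, zero_add] at h2
  rcases mul_eq_zero.1 h2 with h3 | h3
  · exact h3
  · exact absurd h3 (ha l').ne'

section

variable {X : Dat} (hX : MRS X) (l l' : hX.ι)

/-- `rt t = p rt l + q rt l'` -/
def Hgt (t : hX.ι) (p q : ℕ) : Prop :=
  1 ≤ p ∧ 1 ≤ q ∧ hX.rt t = (p : ℝ) • hX.rt l + (q : ℝ) • hX.rt l'

theorem Hgt.uniq {hX : MRS X} {l l' : hX.ι} (hne : hX.rt l ≠ hX.rt l') {t : hX.ι} {p q p' q' : ℕ}
    (h : Hgt hX l l' t p q) (h' : Hgt hX l l' t p' q') : p = p' ∧ q = q' := by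
  have h1 : ∀ a, ((p : ℝ) - p') * hX.rt l a + ((q : ℝ) - q') * hX.rt l' a = 0 := by
    intro a
    have e1 : hX.rt t a = (p : ℝ) * hX.rt l a + (q : ℝ) * hX.rt l' a := by
      rw [h.2.2]; rfl
    have e2 : hX.rt t a = (p' : ℝ) * hX.rt l a + (q' : ℝ) * hX.rt l' a := by
      rw [h'.2.2]; rfl
    linarith
  obtain ⟨h2, h3⟩ := indep hX hne h1
  constructor
  · have : (p : ℝ) = p' := by linarith
    exact_mod_cast this
  · have : (q : ℝ) = q' := by linarith
    exact_mod_cast this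

theorem su_sum (z : hX.ι → ℝ) : SU (∑ t, z t • hX.e t) := by
  refine X.su _ ?_
  refine Submodule.sum_mem _ fun t _ => Submodule.smul_mem _ _ ?_
  rw [← hX.span_e]
  exact Submodule.subset_span ⟨t, rfl⟩

theorem coord_eq (hL : LgmStmt) (z w : hX.ι → ℝ)
    (h : mexp (∑ t, z t • hX.e t) = mexp (∑ t, w t • hX.e t)) : z = w := by
  have h1 := congrArg mlog h
  rw [((hL ℝ X.m).1 _ (su_sum hX z)).2, ((hL ℝ X.m).1 _ (su_sum hX w)).2] at h1
  funext t
  have h2 : ∑ t, (z t - w t) • hX.e t = 0 := by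
    simp only [sub_smul]
    rw [Finset.sum_sub_distrib, h1, sub_self]
  have := (Fintype.linearIndependent_iff.1 hX.lin) (fun t => z t - w t) h2 t
  linarith

theorem evM_mulH (x y : ℝ) {m : ℕ} (G H : Matrix (Fin m) (Fin m) R2) :
    evM x y (G * H) = evM x y G * evM x y H := by
  unfold evM
  rw [Matrix.map_mul]

/-- multiply a family with monomial factors -/
theorem fam_list (hC : CcmStmt) (G : Matrix (Fin X.m) (Fin X.m) R2)
    (hG : FamM hX l l' G) (c : hX.ι → ℚ) (P : hX.ι → ℕ × ℕ) (S : List hX.ι)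
    (hS : ∀ t ∈ S, Hgt hX l l' t (P t).1 (P t).2) :
    ∃ G', FamM hX l l' G' ∧ ∀ x y : ℝ, evM x y G' = evM x y G *
      (S.map fun t => mexp (((c t : ℝ) * x ^ (P t).1 * y ^ (P t).2) • hX.e t)).prod := by
  induction S generalizing G with
  | nil => exact ⟨G, hG, fun x y => by simp⟩
  | cons a S ih =>
    obtain ⟨h1, h2, h3⟩ := hS a List.mem_cons_self
    obtain ⟨Ga, hGa, hGe⟩ := (hC X hX l l').2.1 a (P a).1 (P a).2 (c a) h1 h2 h3
    obtain ⟨G', hG', h4⟩ := ih (G * Ga) ((hC X hX l l').1 G Ga hG hGa)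
      (fun t ht => hS t (List.mem_cons_of_mem _ ht))
    refine ⟨G', hG', fun x y => ?_⟩
    rw [h4, evM_mulH, hGe, List.map_cons, List.prod_cons, mul_assoc]

theorem cdm_step (hB : CbmStmt) (hC : CcmStmt) (hK : CkmStmt) (hL : LgmStmt) (hne : hX.rt l ≠ hX.rt l') :
    ∀ (d K : ℕ), 1 ≤ K → (∀ t p q, Hgt hX l l' t p q → p + q < K + d) →
    ∀ (G : Matrix (Fin X.m) (Fin X.m) R2), FamM hX l l' G →
    ∀ z : hX.ι → ℝ, evM 1 1 G = mexp (∑ t, z t • hX.e t) →
      (∀ t, z t ≠ 0 → ∃ p q, Hgt hX l l' t p q ∧ K ≤ p + q) →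
      ∃ L : List (hX.ι × ℕ × ℕ × ℚ),
        (∀ t ∈ L, Hgt hX l l' t.1 t.2.1 t.2.2.1 ∧ K ≤ t.2.1 + t.2.2.1) ∧
        (L.map fun t => t.1).Nodup ∧
        ∀ x y : ℝ, evM x y G =
          (L.map fun t => mexp (((t.2.2.2 : ℝ) * x ^ t.2.1 * y ^ t.2.2.1) • hX.e t.1)).prod := by
  classical
  intro d
  induction d with
  | zero =>
    intro K _ hbd G hG z hz hz2
    obtain ⟨c, P, hc, hcG⟩ := hB X hX l l' hne G hG
    have h11 : z = fun t => ((c t : ℚ) : ℝ) := by
      apply coord_eq hX hL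
      rw [← hz, hcG 1 1]
      simp
    have hz0 : ∀ t, z t = 0 := by
      intro t
      by_contra h
      obtain ⟨p, q, h1, h2⟩ := hz2 t h
      have := hbd t p q h1
      omega
    refine ⟨[], by simp, by simp, fun x y => ?_⟩
    rw [hcG x y]
    have hc0 : ∀ t, ((c t : ℚ) : ℝ) = 0 := by
      intro t
      rw [← hz0 t, h11]
    rw [Finset.sum_eq_zero (fun t _ => by rw [hc0 t, zero_mul, zero_mul, zero_smul])]
    rw [mexp_zero]; simp
  | succ d ih =>
    intro K hK1 hbd G hG z hz hz2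
    obtain ⟨c, P, hc, hcG⟩ := hB X hX l l' hne G hG
    have h11 : z = fun t => ((c t : ℚ) : ℝ) := by
      apply coord_eq hX hL
      rw [← hz, hcG 1 1]
      simp
    have hzc : ∀ t, z t ≠ 0 ↔ c t ≠ 0 := by
      intro t
      rw [h11]
      simp
    have hPK : ∀ t, z t ≠ 0 → Hgt hX l l' t (P t).1 (P t).2 ∧ K ≤ (P t).1 + (P t).2 := by
      intro t ht
      have h1 : Hgt hX l l' t (P t).1 (P t).2 := hc t ((hzc t).1 ht)
      obtain ⟨p, q, h2, h3⟩ := hz2 t ht
      obtain ⟨h4, h5⟩ := Hgt.uniq hne h1 h2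
      exact ⟨h1, by rw [h4, h5]; exact h3⟩
    let S : List hX.ι := (Finset.univ.filter fun t => z t ≠ 0 ∧ (P t).1 + (P t).2 = K).toList
    have hS : ∀ t, t ∈ S ↔ z t ≠ 0 ∧ (P t).1 + (P t).2 = K := by
      intro t
      simp [S]
    have hSn : S.Nodup := Finset.nodup_toList _
    obtain ⟨G', hG', hG'e⟩ := fam_list hX l l' hC G hG (fun t => - c t) P S
      (fun t ht => (hPK t ((hS t).1 ht).1).1)
    obtain ⟨x, hx1, hx2⟩ := hK X hX l l' hne K hK1 z (fun t => (P t).1 + (P t).2)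
      (fun t ht => ⟨(hPK t ht).2, (P t).1, (P t).2, (hPK t ht).1.1, (hPK t ht).1.2.1, rfl,
        (hPK t ht).1.2.2⟩) S hSn (fun t h1 h2 => (hS t).2 ⟨h1, h2⟩) (fun t ht => (hS t).1 ht)
    have e11 : evM 1 1 G' = mexp (∑ t, x t • hX.e t) := by
      rw [hG'e, hz, ← hx1]
      congr 2
      refine List.map_congr_left fun t _ => ?_
      rw [h11]
      simp
    obtain ⟨L', hL1, hL2, hL3⟩ := ih (K + 1) (by omega)
      (fun t p q h => by have := hbd t p q h; omega) G' hG' x e11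
      (fun t ht => by
        obtain ⟨p, q, h1, h2, h3, h4⟩ := hx2 t ht
        exact ⟨p, q, ⟨h1, h2, h4⟩, h3⟩)
    refine ⟨L' ++ S.reverse.map (fun t => (t, (P t).1, (P t).2, c t)), ?_, ?_, ?_⟩
    · intro t ht
      rcases List.mem_append.1 ht with h | h
      · exact ⟨(hL1 t h).1, by have := (hL1 t h).2; omega⟩
      · obtain ⟨s, hs, rfl⟩ := List.mem_map.1 h
        rw [List.mem_reverse] at hs
        exact hPK s ((hS s).1 hs).1
    · rw [List.map_append, List.map_map]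
      have e1 : ((fun t : hX.ι × ℕ × ℕ × ℚ => t.1) ∘
        fun t : hX.ι => (t, (P t).1, (P t).2, c t)) = id := rfl
      rw [e1, List.map_id]
      refine List.Nodup.append hL2 (List.nodup_reverse.2 hSn) ?_
      intro t ht1 ht2
      rw [List.mem_reverse] at ht2
      obtain ⟨s, hs, rfl⟩ := List.mem_map.1 ht1
      obtain ⟨h1, h2⟩ := (hS _).1 ht2
      obtain ⟨h3, h4⟩ := Hgt.uniq hne (hL1 s hs).1 (hPK _ h1).1
      have h5 := (hL1 s hs).2
      omega
    · intro x y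
      rw [List.map_append, List.prod_append, ← hL3, hG'e, List.map_map, mul_assoc]
      have e2 := Pool.Agent.QSX.H10.list_cancel
        (fun t => mexp (((((- c t : ℚ)) : ℝ) * x ^ (P t).1 * y ^ (P t).2) • hX.e t))
        (fun t => mexp (((c t : ℝ) * x ^ (P t).1 * y ^ (P t).2) • hX.e t)) (by
          intro t
          have e3 : ((((- c t : ℚ)) : ℝ) * x ^ (P t).1 * y ^ (P t).2) • hX.e t =
            -(((c t : ℝ) * x ^ (P t).1 * y ^ (P t).2) • hX.e t) := by
            rw [← neg_smul]; congr 1; push_cast; ring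
          rw [e3]
          exact mexp_neg_mul (su_e hX t _)) S
      have e4 : ((fun t : hX.ι × ℕ × ℕ × ℚ =>
          mexp (((t.2.2.2 : ℝ) * x ^ t.2.1 * y ^ t.2.2.1) • hX.e t.1)) ∘
          fun t : hX.ι => (t, (P t).1, (P t).2, c t)) =
          fun t => mexp (((c t : ℝ) * x ^ (P t).1 * y ^ (P t).2) • hX.e t) := rfl
      rw [e4, e2, mul_one]

end

theorem cdm (hL : LgmStmt) (hB : CbmStmt) (hC : CcmStmt) (hK : CkmStmt) : CdmStmt := by
  classical
  intro X hX l l' hne G hG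
  let hh : hX.ι → ℕ := fun t =>
    if h : ∃ p q, Hgt hX l l' t p q then h.choose + h.choose_spec.choose else 0
  have hhe : ∀ t p q, Hgt hX l l' t p q → p + q = hh t := by
    intro t p q h
    have h1 : ∃ p q, Hgt hX l l' t p q := ⟨p, q, h⟩
    have h2 := h1.choose_spec.choose_spec
    obtain ⟨h3, h4⟩ := Hgt.uniq hne h h2
    simp only [hh, dif_pos h1]
    omega
  obtain ⟨c, P, hc, hcG⟩ := hB X hX l l' hne G hG
  obtain ⟨L, h1, h2, h3⟩ := cdm_step hX l l' hB hC hK hL hne (∑ t, hh t) 1 le_rfl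
    (fun t p q h => by
      rw [hhe t p q h]
      have := Finset.single_le_sum (f := hh) (fun i _ => Nat.zero_le _) (Finset.mem_univ t)
      omega) G hG (fun t => ((c t : ℚ) : ℝ)) (by rw [hcG 1 1]; simp) (fun t ht => by
        have h0 : c t ≠ 0 := by
          intro h; apply ht; show ((c t : ℚ) : ℝ) = 0; rw [h, Rat.cast_zero]
        refine ⟨(P t).1, (P t).2, hc t h0, ?_⟩
        have := (hc t h0).1
        omega)
  exact ⟨L, fun t ht => (h1 t ht).1, h2, h3⟩

end Pool.Agent.QSN.H43
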