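import Pool.Agent.QSN.StmtsB

/-!
# Squad QSN, row NVP: the vertical flats, chosen for each element
-/

set_option autoImplicit false

namespace Pool.Agent.QSN.H43

open Matrix Finset Filter Topology Pool.Agent.QSX Pool.Agent.QSN

section

variable {X Y : Dat} {hX : MS X} {H : Grd hX} (V : FltQ X Y hX H)

/-- the quality of a vertical flat -/
def PrV (s : ℕ) (n : UX X) (g : UX Y) (ε : ℝ) : Prop :=
  ∀ a : X.b, ‖a‖ ≤ 1 → ∀ i l, i < l →
    |(((ue ((V.F n s a).1 : Matrix (Fin Y.m) (Fin Y.m) ℝ))⁻¹ * g : UX Y) : Matrix _ _ ℝ) i l| ≤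
      Real.exp (V.S.R s * (V.P a i - V.P a l + ε))

theorem PrV.mono {s : ℕ} {n : UX X} {g : UX Y} {ε ε' : ℝ} (h : PrV V s n g ε) (he : ε ≤ ε') :
    PrV V s n g ε' := by
  intro a ha i l hil
  refine (h a ha i l hil).trans (Real.exp_le_exp.2 ?_)
  have := V.one_le s
  exact mul_le_mul_of_nonneg_left (by linarith) (by linarith)

theorem ex_best (s : ℕ) (n : UX X) : ∃ g : UX Y, (∃ y ∈ Y.n, g = ue y) ∧
    ∀ ε : ℝ, 0 ≤ ε → (∃ g' : UX Y, (∃ y ∈ Y.n, g' = ue y) ∧ PrV V s n g' ε) →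
      PrV V s n g (ε + 1 / ((s : ℝ) + 1)) := by
  classical
  set E : Set ℝ := {ε | 0 ≤ ε ∧ ∃ g' : UX Y, (∃ y ∈ Y.n, g' = ue y) ∧ PrV V s n g' ε} with hE
  rcases E.eq_empty_or_nonempty with h0 | h0
  · refine ⟨ue 0, ⟨0, Y.n.zero_mem, rfl⟩, fun ε hε h => ?_⟩
    exact absurd (show ε ∈ E from ⟨hε, h⟩) (by rw [h0]; exact Set.notMem_empty ε)
  · have hs : (0 : ℝ) < 1 / ((s : ℝ) + 1) := by positivity
    obtain ⟨ε₀, ⟨-, g, hg, hP⟩, h1⟩ := exists_lt_of_csInf_lt h0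
      (show sInf E < sInf E + 1 / ((s : ℝ) + 1) by linarith)
    refine ⟨g, hg, fun ε hε h => ?_⟩
    have h2 : sInf E ≤ ε := csInf_le ⟨0, fun x hx => hx.1⟩ ⟨hε, h⟩
    exact hP.mono V (by linarith)

theorem P_bdQ : ∃ M : ℝ, 0 ≤ M ∧ ∀ a : X.b, ∀ i, |V.P a i| ≤ M * ‖a‖ := by
  let P' := LinearMap.toContinuousLinearMap V.P
  refine ⟨‖P'‖, norm_nonneg P', fun a i => ?_⟩
  have h1 : ‖P' a‖ ≤ ‖P'‖ * ‖a‖ := P'.le_opNorm a
  have h2 : ‖V.P a i‖ ≤ ‖V.P a‖ := norm_le_pi_norm _ i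
  rw [Real.norm_eq_abs] at h2
  exact h2.trans h1

/-- the hypothesis of the near vertical lemma -/
theorem vert_hypQ (ent : EntStmt) (n : ℕ → UX X) (hn : V.Good n) :
    ∀ ε > (0 : ℝ), ∀ᶠ s in (V.S.ω : Filter ℕ), ∀ a a' : X.b, ‖a‖ ≤ 1 → ‖a'‖ ≤ 1 →
      V.S.R s * ‖a - a'‖ ≤ 1 → ∀ i l, i < l →
      |(((ue ((V.F (n s) s a).1 : Matrix (Fin Y.m) (Fin Y.m) ℝ))⁻¹ *
        ue ((V.F (n s) s a').1 : Matrix (Fin Y.m) (Fin Y.m) ℝ) : UX Y) :
        Matrix _ _ ℝ) i l| ≤ Real.exp (V.S.R s * (V.P a i - V.P a l + ε)) := by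
  intro ε hε
  obtain ⟨M, hM, hPb⟩ := P_bdQ V
  filter_upwards [hn, V.δ0.eventually (gt_mem_nhds (show (0 : ℝ) < ε / 4 by positivity)),
    V.S.ev_R (2 / ε * (V.L + V.C + M))] with s hs hδ h2
  intro a a' ha ha' haa i l hil
  refine (ent Y (V.F (n s) s a) (V.F (n s) s a') i l).trans (Real.exp_le_exp.mpr ?_)
  have hR := V.one_le s
  have h3 := V.lip s (n s) hs a a'
  have h4 : V.L * (V.S.R s * ‖a - a'‖) ≤ V.L * 1 :=
    mul_le_mul_of_nonneg_left haa (by linarith [V.one_le_L])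
  have h5 := abs_le.mp (V.aff s (n s) hs a ha i)
  have h6 := abs_le.mp (V.aff s (n s) hs a' ha' l)
  have hδR : V.δ s * V.S.R s ≤ ε / 4 * V.S.R s :=
    mul_le_mul_of_nonneg_right hδ.le (by linarith)
  have h7 := hPb (a - a') l
  rw [map_sub, Pi.sub_apply] at h7
  have h8 : V.S.R s * |V.P a l - V.P a' l| ≤ M := by
    calc V.S.R s * |V.P a l - V.P a' l| ≤ V.S.R s * (M * ‖a - a'‖) :=
          mul_le_mul_of_nonneg_left h7 (by linarith)
      _ = M * (V.S.R s * ‖a - a'‖) := by ring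
      _ ≤ M * 1 := mul_le_mul_of_nonneg_left haa hM
      _ = M := mul_one M
  have h9 : V.S.R s * (V.P a l - V.P a' l) ≤ M :=
    (mul_le_mul_of_nonneg_left (le_abs_self _) (by linarith)).trans h8
  have h10 : V.L + V.C + M ≤ ε / 2 * V.S.R s := by
    have := mul_le_mul_of_nonneg_left h2 (by positivity : (0 : ℝ) ≤ ε / 2)
    calc V.L + V.C + M = ε / 2 * (2 / ε * (V.L + V.C + M)) := by field_simp
      _ ≤ _ := this
  nlinarith [h5.2, h6.1]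

theorem ev_ge (S : Scale) (N : ℕ) : ∀ᶠ s in (S.ω : Filter ℕ), N ≤ s := by
  have h1 : ∃ B : ℝ, ∀ s < N, S.R s ≤ B := by
    refine ⟨∑ s ∈ range N, |S.R s|, fun s hs => ?_⟩
    exact (le_abs_self _).trans
      (Finset.single_le_sum (f := fun s => |S.R s|) (fun i _ => abs_nonneg _) (mem_range.2 hs))
  obtain ⟨B, hB⟩ := h1
  filter_upwards [S.ev_R (B + 1)] with s hs
  by_contra hlt
  have := hB s (not_le.1 hlt)
  linarith

end

/-- **NVP** (NVL and ENT of QSX are proved) -/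
theorem nvp (nvl : NvlStmt) (ent : EntStmt) : NvpStmt := by
  classical
  intro X Y hX H V
  choose ψ hψ1 hψ2 using fun s n => ex_best V s n
  refine ⟨ψ, hψ1, fun n hn => ?_⟩
  set φ : ℕ → X.b → UX Y := fun s a =>
    if n s ∈ V.Gd s then ue ((V.F (n s) s a).1 : Matrix (Fin Y.m) (Fin Y.m) ℝ) else ue 0 with hφ
  have hφn : ∀ s a, ∃ y ∈ Y.n, φ s a = ue y := by
    intro s a
    by_cases hs : n s ∈ V.Gd s
    · exact ⟨_, (V.F (n s) s a).1.2, by rw [hφ]; exact if_pos hs⟩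
    · exact ⟨0, Y.n.zero_mem, by rw [hφ]; exact if_neg hs⟩
  obtain ⟨g, hg1, hg2⟩ := nvl Y V.S X.b V.P V.Pb V.one_le φ hφn (by
    intro ε hε
    filter_upwards [hn, vert_hypQ V ent n hn ε hε] with s hs h1
    intro a a' ha ha' haa i l hil
    have h2 : φ s a = ue ((V.F (n s) s a).1 : Matrix (Fin Y.m) (Fin Y.m) ℝ) := if_pos hs
    have h3 : φ s a' = ue ((V.F (n s) s a').1 : Matrix (Fin Y.m) (Fin Y.m) ℝ) := if_pos hs
    rw [h2, h3]
    exact h1 a a' ha ha' haa i l hil)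
  intro ε hε
  obtain ⟨N, hN⟩ := exists_nat_gt (2 / ε)
  filter_upwards [hn, hg2 (ε / 2) (by positivity), ev_ge V.S N] with s hs h1 h2
  have h3 : PrV V s (n s) (g s) (ε / 2) := by
    intro a ha i l hil
    have h4 := h1 a ha i l hil
    have h5 : φ s a = ue ((V.F (n s) s a).1 : Matrix (Fin Y.m) (Fin Y.m) ℝ) := if_pos hs
    rw [h5] at h4
    exact h4
  have h6 := hψ2 s (n s) (ε / 2) (by positivity) ⟨g s, hg1 s, h3⟩
  have h7 : 1 / ((s : ℝ) + 1) ≤ ε / 2 := by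
    have h8 : (N : ℝ) ≤ s := by exact_mod_cast h2
    rw [div_le_div_iff₀ (by positivity) (by norm_num)]
    rw [div_lt_iff₀ hε] at hN
    nlinarith
  have h9 := h6.mono V (ε' := ε) (by linarith)
  exact fun a ha i l hil => h9 a ha i l hil

end Pool.Agent.QSN.H43
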